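import Pool.Agent.Q64.BP.Stm

/-! L4 for project BP (MP_784f1f_an): integrability of `Th (G, F)`. -/

set_option autoImplicit false

open MeasureTheory Filter Topology Set
open scoped ENNReal NNReal ContDiff

namespace Pool.Agent.Q254.BP

open Pool.Agent.Q64.BP

theorem meas_good {a b : ℝ × ℝ → ℝ} (ha : Measurable a) (hb : Measurable b) :
    MeasurableSet {p | Good (a p) (b p)} := by
  have h1 : MeasurableSet {p | 1 / 2 < |b p|} := measurableSet_lt measurable_const hb.abs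
  have h2 : MeasurableSet {p | 0 < a p * b p} := measurableSet_lt measurable_const (ha.mul hb)
  have h3 : MeasurableSet {p | |b p| < |a p|} := measurableSet_lt hb.abs ha.abs
  exact h1.inter (h2.inter h3)

theorem last {T : ℝ} {u ut ux uxx : ℕ → ℝ × ℝ → ℝ} {D : ℕ → Set (ℝ × ℝ)}
    (h : Sq T u ut ux uxx D) {p : ℝ × ℝ} {g f : ℝ} (h0 : p ∈ D 0) : ∀ N : ℕ,
    (∀ n, N ≤ n → p ∉ D n ∧ ut n p = g ∧ uxx n p = f) →
      ∃ n, p ∈ D n ∧ ut (n + 1) p = g ∧ uxx (n + 1) p = f
  | 0, hN => absurd h0 (hN 0 le_rfl).1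
  | N + 1, hN => by
    by_cases hp : p ∈ D N
    · exact ⟨N, hp, (hN (N + 1) le_rfl).2⟩
    · refine last h h0 N fun n hn => ?_
      rcases Nat.eq_or_lt_of_le hn with hn | hn
      · subst hn
        obtain ⟨ε, -, -, -, hs⟩ := h.step N
        obtain ⟨-, e1, -, e2⟩ := hs.same p hp
        obtain ⟨-, e3, e4⟩ := hN (N + 1) le_rfl
        exact ⟨hp, by rw [← e1, e3], by rw [← e2, e4]⟩
      · exact hN n hn

theorem t_L4 : S_L4 := by
  intro T u ut ux uxx D hT h G F hG hF hlim hgood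
  have mt : ∀ n, Measurable (ut n) := fun n => (h.st n).ct.measurable
  have mx : ∀ n, Measurable (uxx n) := fun n => (h.st n).cxx.measurable
  have mQ : MeasurableSet (Q T) := measurableSet_Ioo.prod measurableSet_Ioo
  choose ε hε0 hε1 hε2 hstep using h.step
  let S : ℕ → Set (ℝ × ℝ) := fun n =>
    (D n ∩ Q T ∩ {p | Good (ut (n + 1) p) (uxx (n + 1) p)}) ∩
      ({p | ut (n + 1) p = G p} ∩ {p | uxx (n + 1) p = F p})
  have mS : ∀ n, MeasurableSet (S n) := fun n =>
    ((((hstep n).meas.inter mQ).inter (meas_good (mt _) (mx _)))).inter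
      ((measurableSet_eq_fun (mt _) hG).inter (measurableSet_eq_fun (mx _) hF))
  have hcov : Q T ≤ᵐ[volume] ⋃ n, S n := by
    filter_upwards [hlim, hgood] with p hp1 hp2 hpQ
    have hpQ' : p ∈ Q T := hpQ
    have h0 : p ∈ D 0 := by
      refine (hstep 0).cover p hpQ' ?_
      obtain ⟨-, e1, -, e2⟩ := h.zero p
      rw [e1, e2]
      rintro ⟨h1, -, -⟩
      rw [abs_zero] at h1
      linarith
    obtain ⟨N, hN⟩ := hp1
    obtain ⟨n, hn1, hn2, hn3⟩ := last h h0 N hN
    refine mem_iUnion.2 ⟨n, ⟨⟨hn1, hpQ'⟩, ?_⟩, hn2, hn3⟩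
    show Good (ut (n + 1) p) (uxx (n + 1) p)
    rw [hn2, hn3]
    exact hp2 hpQ'
  have hterm : ∀ n, ∫⁻ p in S n, ENNReal.ofReal (Th (G p) (F p)) ≤
      ENNReal.ofReal (201 * T * (7 / 8) ^ n) := by
    intro n
    have hTn : 0 ≤ T * (7 / 8 : ℝ) ^ n := by positivity
    calc ∫⁻ p in S n, ENNReal.ofReal (Th (G p) (F p))
        = ∫⁻ p in S n, ENNReal.ofReal (Th (ut (n + 1) p) (uxx (n + 1) p)) := by
          refine setLIntegral_congr_fun (mS n) fun p hp => ?_
          have e1 : ut (n + 1) p = G p := hp.2.1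
          have e2 : uxx (n + 1) p = F p := hp.2.2
          simp only [e1, e2]
      _ ≤ ∫⁻ p in D n ∩ Q T ∩ {p | Good (ut (n + 1) p) (uxx (n + 1) p)},
            ENNReal.ofReal (Th (ut (n + 1) p) (uxx (n + 1) p)) :=
          lintegral_mono_set inter_subset_left
      _ ≤ 200 * bad T (ut n) (uxx n) + ENNReal.ofReal (ε n) := (hstep n).theta
      _ ≤ 200 * ENNReal.ofReal (T * (7 / 8) ^ n) + ENNReal.ofReal (T * (7 / 8) ^ n) :=
          add_le_add (mul_le_mul_right (h.bd n) _) (ENNReal.ofReal_le_ofReal (hε1 n))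
      _ = ENNReal.ofReal (201 * T * (7 / 8) ^ n) := by
          have e : (200 : ℝ≥0∞) = ENNReal.ofReal 200 := by norm_num
          rw [e, ← ENNReal.ofReal_mul (by norm_num), ← ENNReal.ofReal_add (by positivity) hTn]
          congr 1
          ring
  calc ∫⁻ p in Q T, ENNReal.ofReal (Th (G p) (F p))
      ≤ ∫⁻ p in ⋃ n, S n, ENNReal.ofReal (Th (G p) (F p)) := lintegral_mono_set' hcov
    _ ≤ ∑' n, ∫⁻ p in S n, ENNReal.ofReal (Th (G p) (F p)) := lintegral_iUnion_le _ _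
    _ ≤ ∑' n, ENNReal.ofReal (201 * T * (7 / 8) ^ n) := ENNReal.tsum_le_tsum hterm
    _ < ⊤ := Summable.tsum_ofReal_lt_top
          ((summable_geometric_of_lt_one (by norm_num) (by norm_num)).mul_left _)

end Pool.Agent.Q254.BP

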